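import Mathlib

/-!
# Del Pezzo surfaces of degree one with several generalized Eckardt points

Every del Pezzo surface of degree one over an algebraically closed field `k` is a smooth sextic
surface in the weighted projective space `P(1,1,2,3)` that does not contain the two singular
points of this space, and conversely every such sextic is a del Pezzo surface of degree one. The
exceptional curves of such a surface are the curves `z = Q(x,y)`, `w = C(x,y)` contained in it,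
`Q` and `C` binary forms of degree two and three.

For every `t ≠ 0` with `t ^ 2 - 11 t - 1 ≠ 0` the surface
`w ^ 2 + (1 - t) y z w - t y ^ 3 w = z ^ 3 - t y ^ 2 z ^ 2 + x ^ 5 y` over an algebraically closed
field of characteristic different from `2`, `3`, `5` is a del Pezzo surface of degree one, and each
of the four points `(0:1:0:0)`, `(0:1:0:t)`, `(0:1:t:0)`, `(0:1:t:t^2)` (which are, with the origin,
the multiples of a point of order five of the elliptic curve `x = 0`) lies on exactly ten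
exceptional curves.
-/

set_option autoImplicit false

namespace Pool.Agent.Results.MP_3c244b_ag.TorsionPoints

open MvPolynomial

variable {k : Type*} [Field k]

/-- The weights of the coordinates `x, y, z, w` of `P(1,1,2,3)`. -/
def weight : Fin 4 → ℕ := ![1, 1, 2, 3]

/-- `F = 0` is a del Pezzo surface of degree one in `P(1,1,2,3)` over the algebraically closed
field `k`: `F` is weighted homogeneous of degree six, the surface avoids the two singular points
`(0:0:1:0)` and `(0:0:0:1)` of `P(1,1,2,3)`, and it is smooth. -/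
structure IsDelPezzo (F : MvPolynomial (Fin 4) k) : Prop where
  homogeneous : F.IsWeightedHomogeneous weight 6
  avoids₁ : eval ![0, 0, 1, 0] F ≠ 0
  avoids₂ : eval ![0, 0, 0, 1] F ≠ 0
  smooth : ∀ v : Fin 4 → k, v ≠ 0 → eval v F = 0 → ∃ i, eval v (pderiv i F) ≠ 0

/-- The curve `z = Q(x,y)`, `w = C(x,y)` is an exceptional curve of the surface `F = 0`: `Q` and
`C` are binary forms of degrees two and three, and the curve is contained in the surface. -/
def IsExceptional (F : MvPolynomial (Fin 4) k)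
    (E : MvPolynomial (Fin 2) k × MvPolynomial (Fin 2) k) : Prop :=
  E.1.IsHomogeneous 2 ∧ E.2.IsHomogeneous 3 ∧ aeval ![X 0, X 1, E.1, E.2] F = 0

/-- The set of the exceptional curves through the point with the coordinates `v`. -/
def exceptionalThrough (F : MvPolynomial (Fin 4) k) (v : Fin 4 → k) :
    Set (MvPolynomial (Fin 2) k × MvPolynomial (Fin 2) k) :=
  {E | IsExceptional F E ∧ eval ![v 0, v 1] E.1 = v 2 ∧ eval ![v 0, v 1] E.2 = v 3}

/-- `v` is a point of the surface `F = 0` which is a generalized Eckardt point. -/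
def IsGeneralizedEckardt (F : MvPolynomial (Fin 4) k) (v : Fin 4 → k) : Prop :=
  v ≠ 0 ∧ eval v F = 0 ∧ (exceptionalThrough F v).ncard =
    if ringChar k = 2 then 16 else if ringChar k = 3 then 12 else 10

/-- `v` and `v'` are coordinates of the same point of `P(1,1,2,3)`. -/
def SamePoint (v v' : Fin 4 → k) : Prop :=
  ∃ l : k, l ≠ 0 ∧ ∀ i, v' i = l ^ weight i * v i

/-- The polynomial `w² + a₁ y z w + a₃ y³ w - z³ - a₂ y² z² - c x⁵ y`. -/
noncomputable def eqn (a₁ a₂ a₃ c : k) : MvPolynomial (Fin 4) k :=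
  X 3 ^ 2 + C a₁ * X 1 * X 2 * X 3 + C a₃ * X 1 ^ 3 * X 3 - X 2 ^ 3 - C a₂ * X 1 ^ 2 * X 2 ^ 2 -
    C c * X 0 ^ 5 * X 1

/-- The equation `w ^ 2 + (1 - t) y z w - t y ^ 3 w = z ^ 3 - t y ^ 2 z ^ 2 + x ^ 5 y`. -/
noncomputable def surface (t : k) : MvPolynomial (Fin 4) k := eqn (1 - t) (-t) (-t) 1

/-! ### Binary forms -/

lemma form_n {n : ℕ} {Q : MvPolynomial (Fin 2) k} (h : Q.IsHomogeneous n) :
    Q = ∑ i ∈ Finset.range (n + 1),
      C (coeff (Finsupp.single 0 i + Finsupp.single 1 (n - i)) Q) * X 0 ^ i * X 1 ^ (n - i) := by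
  have hmon : ∀ (a : k) (i j : ℕ), (C a * X 0 ^ i * X 1 ^ j : MvPolynomial (Fin 2) k) =
      monomial (Finsupp.single 0 i + Finsupp.single 1 j) a := by
    intro a i j
    rw [X_pow_eq_monomial, X_pow_eq_monomial, C_mul_monomial, monomial_mul]
    simp
  ext m
  simp only [hmon, coeff_sum, coeff_monomial]
  by_cases hm : m 0 + m 1 = n
  · have hm' : m = Finsupp.single 0 (m 0) + Finsupp.single 1 (n - m 0) := by
      ext i; fin_cases i
      · simp
      · simp; omega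
    rw [Finset.sum_eq_single (m 0)]
    · rw [if_pos hm'.symm, ← hm']
    · intro b _ hb
      rw [if_neg]
      intro h'
      apply hb
      rw [← h']
      simp
    · intro h'
      exact absurd (Finset.mem_range.2 (by omega)) h'
  · rw [Finset.sum_eq_zero]
    · by_contra h'
      apply hm
      have := h h'
      simpa [Finsupp.weight_apply, Finsupp.sum_fintype, Finsupp.degree] using this
    · intro i hi
      rw [if_neg]
      intro h'
      apply hm
      rw [← h']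
      simp
      have := Finset.mem_range.1 hi
      omega

lemma form_two {Q : MvPolynomial (Fin 2) k} (h : Q.IsHomogeneous 2) :
    ∃ q₀ q₁ q₂ : k, Q = C q₀ * X 1 ^ 2 + C q₁ * X 0 * X 1 + C q₂ * X 0 ^ 2 := by
  have h' := form_n h
  rw [Finset.sum_range_succ, Finset.sum_range_succ, Finset.sum_range_one] at h'
  simp only [pow_zero, mul_one, Nat.sub_zero, pow_one, Nat.sub_self, Nat.reduceSub] at h'
  exact ⟨_, _, _, h'⟩

lemma form_three {Q : MvPolynomial (Fin 2) k} (h : Q.IsHomogeneous 3) :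
    ∃ q₀ q₁ q₂ q₃ : k, Q = C q₀ * X 1 ^ 3 + C q₁ * X 0 * X 1 ^ 2 + C q₂ * X 0 ^ 2 * X 1 +
      C q₃ * X 0 ^ 3 := by
  have h' := form_n h
  rw [Finset.sum_range_succ, Finset.sum_range_succ, Finset.sum_range_succ,
    Finset.sum_range_one] at h'
  simp only [pow_zero, mul_one, Nat.sub_zero, pow_one, Nat.sub_self, Nat.reduceSub] at h'
  exact ⟨_, _, _, _, h'⟩

/-! ### The equations for the coefficients -/

lemma core_forward {u b c q₁ q₂ c₁ c₂ c₃ : k} (hu : u ≠ 0) (hb : b ≠ 0) (hc : c ≠ 0)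
    (e1 : (-u ^ 3 * b) * c₁ = 0)
    (e2 : c₁ ^ 2 + (u * (1 - b)) * q₁ * c₁ + (-u ^ 3 * b) * c₂ = (-u ^ 2 * b) * q₁ ^ 2)
    (e3 : 2 * c₁ * c₂ + (u * (1 - b)) * (q₁ * c₂ + q₂ * c₁) + (-u ^ 3 * b) * c₃ =
      q₁ ^ 3 + 2 * (-u ^ 2 * b) * q₁ * q₂)
    (e4 : c₂ ^ 2 + 2 * c₁ * c₃ + (u * (1 - b)) * (q₁ * c₃ + q₂ * c₂) =
      3 * q₁ ^ 2 * q₂ + (-u ^ 2 * b) * q₂ ^ 2)
    (e5 : 2 * c₂ * c₃ + (u * (1 - b)) * q₂ * c₃ = 3 * q₁ * q₂ ^ 2 + c) :
    ∃ r s : k, r ^ 2 - 3 * r + 1 = 0 ∧ u ^ 6 * s ^ 5 * (1 + (5 * r - 2) * b) = -c ∧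
      c₁ = 0 ∧ q₁ = u ^ 2 * s ∧ q₂ = u ^ 2 * r * s ^ 2 ∧ c₂ = u ^ 3 * s ^ 2 ∧
      c₃ = u ^ 3 * (2 * r - 1) * s ^ 3 := by
  have h1 : c₁ = 0 := by
    have : -u ^ 3 * b ≠ 0 := by simp [hu, hb]
    exact (mul_eq_zero.1 e1).resolve_left this
  subst h1
  obtain ⟨s, rfl⟩ : ∃ s, q₁ = u ^ 2 * s := ⟨q₁ / u ^ 2, by field_simp⟩
  have h2 : c₂ = u ^ 3 * s ^ 2 := by
    have : u ^ 3 * b ≠ 0 := by simp [hu, hb]
    apply mul_left_cancel₀ this
    linear_combination -e2
  subst h2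
  have h3 : c₃ = 2 * u * s * q₂ - u ^ 3 * s ^ 3 := by
    have : u ^ 3 * b ≠ 0 := by simp [hu, hb]
    apply mul_left_cancel₀ this
    linear_combination -e3
  subst h3
  have h4 : u ^ 4 * s ^ 4 - 3 * u ^ 2 * s ^ 2 * q₂ + q₂ ^ 2 = 0 := by
    have : u ^ 2 * b ≠ 0 := by simp [hu, hb]
    apply mul_left_cancel₀ this
    linear_combination e4
  have hs : s ≠ 0 := by
    rintro rfl
    have : q₂ = 0 := by simpa using h4
    subst this
    apply hc
    linear_combination -e5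
  obtain ⟨r, rfl⟩ : ∃ r, q₂ = u ^ 2 * r * s ^ 2 := ⟨q₂ / (u ^ 2 * s ^ 2), by field_simp⟩
  have hr : r ^ 2 - 3 * r + 1 = 0 := by
    have : u ^ 4 * s ^ 4 ≠ 0 := by simp [hu, hs]
    apply mul_left_cancel₀ this
    linear_combination h4
  refine ⟨r, s, hr, ?_, rfl, rfl, rfl, rfl, ?_⟩
  · linear_combination -e5 + (u ^ 6 * s ^ 5 * (-2 * b - 1)) * hr
  · ring

lemma core_back {u b c r s : k} (hr : r ^ 2 - 3 * r + 1 = 0)
    (h : u ^ 6 * s ^ 5 * (1 + (5 * r - 2) * b) = -c) :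
    ((-u ^ 3 * b) * (u ^ 3 * s ^ 2) = (-u ^ 2 * b) * (u ^ 2 * s) ^ 2) ∧
    ((u * (1 - b)) * ((u ^ 2 * s) * (u ^ 3 * s ^ 2)) + (-u ^ 3 * b) * (u ^ 3 * (2 * r - 1) * s ^ 3) =
      (u ^ 2 * s) ^ 3 + 2 * (-u ^ 2 * b) * (u ^ 2 * s) * (u ^ 2 * r * s ^ 2)) ∧
    ((u ^ 3 * s ^ 2) ^ 2 + (u * (1 - b)) * ((u ^ 2 * s) * (u ^ 3 * (2 * r - 1) * s ^ 3) +
      (u ^ 2 * r * s ^ 2) * (u ^ 3 * s ^ 2)) =
      3 * (u ^ 2 * s) ^ 2 * (u ^ 2 * r * s ^ 2) + (-u ^ 2 * b) * (u ^ 2 * r * s ^ 2) ^ 2) ∧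
    (2 * (u ^ 3 * s ^ 2) * (u ^ 3 * (2 * r - 1) * s ^ 3) +
      (u * (1 - b)) * (u ^ 2 * r * s ^ 2) * (u ^ 3 * (2 * r - 1) * s ^ 3) =
      3 * (u ^ 2 * s) * (u ^ 2 * r * s ^ 2) ^ 2 + c) ∧
    ((u ^ 3 * (2 * r - 1) * s ^ 3) ^ 2 = (u ^ 2 * r * s ^ 2) ^ 3) := by
  refine ⟨by ring, by ring, ?_, ?_, ?_⟩
  · linear_combination (u ^ 6 * s ^ 4 * b) * hr
  · linear_combination -h + (u ^ 6 * s ^ 5 * (-2 * b - 1)) * hr
  · linear_combination (u ^ 6 * s ^ 6 * (1 - r)) * hr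

lemma sextic_zero {e1 e2 e3 e4 e5 e6 : k}
    (h : Polynomial.C e1 * Polynomial.X + Polynomial.C e2 * Polynomial.X ^ 2 +
      Polynomial.C e3 * Polynomial.X ^ 3 + Polynomial.C e4 * Polynomial.X ^ 4 +
      Polynomial.C e5 * Polynomial.X ^ 5 + Polynomial.C e6 * Polynomial.X ^ 6 = 0) :
    e1 = 0 ∧ e2 = 0 ∧ e3 = 0 ∧ e4 = 0 ∧ e5 = 0 ∧ e6 = 0 := by
  have h1 := congrArg (fun p => Polynomial.coeff p 1) h
  have h2 := congrArg (fun p => Polynomial.coeff p 2) h
  have h3 := congrArg (fun p => Polynomial.coeff p 3) h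
  have h4 := congrArg (fun p => Polynomial.coeff p 4) h
  have h5 := congrArg (fun p => Polynomial.coeff p 5) h
  have h6 := congrArg (fun p => Polynomial.coeff p 6) h
  simp [Polynomial.coeff_X_pow] at h1 h2 h3 h4 h5 h6
  exact ⟨h1, h2, h3, h4, h5, h6⟩

lemma coeffs_of_eq {a₁ a₂ a₃ c q₁ q₂ c₁ c₂ c₃ : k}
    (h : aeval ![(X 0 : MvPolynomial (Fin 2) k), X 1, C q₁ * X 0 * X 1 + C q₂ * X 0 ^ 2,
      C c₁ * X 0 * X 1 ^ 2 + C c₂ * X 0 ^ 2 * X 1 + C c₃ * X 0 ^ 3] (eqn a₁ a₂ a₃ c) = 0) :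
    a₃ * c₁ = 0 ∧ c₁ ^ 2 + a₁ * q₁ * c₁ + a₃ * c₂ = a₂ * q₁ ^ 2 ∧
    2 * c₁ * c₂ + a₁ * (q₁ * c₂ + q₂ * c₁) + a₃ * c₃ = q₁ ^ 3 + 2 * a₂ * q₁ * q₂ ∧
    c₂ ^ 2 + 2 * c₁ * c₃ + a₁ * (q₁ * c₃ + q₂ * c₂) = 3 * q₁ ^ 2 * q₂ + a₂ * q₂ ^ 2 ∧
    2 * c₂ * c₃ + a₁ * q₂ * c₃ = 3 * q₁ * q₂ ^ 2 + c ∧ c₃ ^ 2 = q₂ ^ 3 := by
  have h' := congrArg (aeval (R := k) ![(Polynomial.X : Polynomial k), 1]) h
  have h2 : Polynomial.C (a₃ * c₁) * Polynomial.X +
      Polynomial.C (c₁ ^ 2 + a₁ * q₁ * c₁ + a₃ * c₂ - a₂ * q₁ ^ 2) * Polynomial.X ^ 2 +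
      Polynomial.C (2 * c₁ * c₂ + a₁ * (q₁ * c₂ + q₂ * c₁) + a₃ * c₃ - (q₁ ^ 3 + 2 * a₂ * q₁ * q₂)) *
        Polynomial.X ^ 3 +
      Polynomial.C (c₂ ^ 2 + 2 * c₁ * c₃ + a₁ * (q₁ * c₃ + q₂ * c₂) -
        (3 * q₁ ^ 2 * q₂ + a₂ * q₂ ^ 2)) * Polynomial.X ^ 4 +
      Polynomial.C (2 * c₂ * c₃ + a₁ * q₂ * c₃ - (3 * q₁ * q₂ ^ 2 + c)) * Polynomial.X ^ 5 +
      Polynomial.C (c₃ ^ 2 - q₂ ^ 3) * Polynomial.X ^ 6 = 0 := by
    rw [← map_zero (aeval (R := k) ![(Polynomial.X : Polynomial k), 1]), ← h', eqn]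
    simp only [map_add, map_sub, map_mul, map_pow, aeval_X, algHom_C, Matrix.cons_val,
      Polynomial.algebraMap_eq, MvPolynomial.algebraMap_eq, Fin.isValue, map_ofNat]
    ring
  obtain ⟨h1, h2, h3, h4, h5, h6⟩ := sextic_zero h2
  exact ⟨h1, sub_eq_zero.1 h2, sub_eq_zero.1 h3, sub_eq_zero.1 h4, sub_eq_zero.1 h5,
    sub_eq_zero.1 h6⟩

lemma eq_of_coeffs {a₁ a₂ a₃ c q₁ q₂ c₂ c₃ : k}
    (e2 : a₃ * c₂ = a₂ * q₁ ^ 2)
    (e3 : a₁ * (q₁ * c₂) + a₃ * c₃ = q₁ ^ 3 + 2 * a₂ * q₁ * q₂)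
    (e4 : c₂ ^ 2 + a₁ * (q₁ * c₃ + q₂ * c₂) = 3 * q₁ ^ 2 * q₂ + a₂ * q₂ ^ 2)
    (e5 : 2 * c₂ * c₃ + a₁ * q₂ * c₃ = 3 * q₁ * q₂ ^ 2 + c) (e6 : c₃ ^ 2 = q₂ ^ 3) :
    aeval ![(X 0 : MvPolynomial (Fin 2) k), X 1, C q₁ * X 0 * X 1 + C q₂ * X 0 ^ 2,
      C c₂ * X 0 ^ 2 * X 1 + C c₃ * X 0 ^ 3] (eqn a₁ a₂ a₃ c) = 0 := by
  have h2 : (C a₃ * C c₂ : MvPolynomial (Fin 2) k) = C a₂ * C q₁ ^ 2 := by
    simpa only [map_mul, map_pow] using congrArg (C (σ := Fin 2)) e2
  have h3 : (C a₁ * (C q₁ * C c₂) + C a₃ * C c₃ : MvPolynomial (Fin 2) k) =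
      C q₁ ^ 3 + 2 * C a₂ * C q₁ * C q₂ := by
    simpa only [map_mul, map_pow, map_add, map_ofNat] using congrArg (C (σ := Fin 2)) e3
  have h4 : (C c₂ ^ 2 + C a₁ * (C q₁ * C c₃ + C q₂ * C c₂) : MvPolynomial (Fin 2) k) =
      3 * C q₁ ^ 2 * C q₂ + C a₂ * C q₂ ^ 2 := by
    simpa only [map_mul, map_pow, map_add, map_ofNat] using congrArg (C (σ := Fin 2)) e4
  have h5 : (2 * C c₂ * C c₃ + C a₁ * C q₂ * C c₃ : MvPolynomial (Fin 2) k) =
      3 * C q₁ * C q₂ ^ 2 + C c := by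
    simpa only [map_mul, map_pow, map_add, map_ofNat] using congrArg (C (σ := Fin 2)) e5
  have h6 : (C c₃ ^ 2 : MvPolynomial (Fin 2) k) = C q₂ ^ 3 := by
    simpa only [map_mul, map_pow, map_add, map_ofNat] using congrArg (C (σ := Fin 2)) e6
  rw [eqn]
  simp only [map_add, map_sub, map_mul, map_pow, aeval_X, algHom_C, Matrix.cons_val,
      MvPolynomial.algebraMap_eq, Fin.isValue]
  linear_combination (X 0 ^ 2 * X 1 ^ 4) * h2 + (X 0 ^ 3 * X 1 ^ 3) * h3 + (X 0 ^ 4 * X 1 ^ 2) * h4 +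
    (X 0 ^ 5 * X 1) * h5 + (X 0 ^ 6) * h6

/-! ### The exceptional curves through the point `(0:1:0:0)` -/

/-- The parameters of the exceptional curves. -/
def params (u b c : k) : Set (k × k) :=
  {p | p.1 ^ 2 - 3 * p.1 + 1 = 0 ∧ u ^ 6 * p.2 ^ 5 * (1 + (5 * p.1 - 2) * b) = -c}

/-- The exceptional curve with the parameters `p`. -/
noncomputable def curveOf (u : k) (p : k × k) : MvPolynomial (Fin 2) k × MvPolynomial (Fin 2) k :=
  (C (u ^ 2 * p.2) * X 0 * X 1 + C (u ^ 2 * p.1 * p.2 ^ 2) * X 0 ^ 2,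
    C (u ^ 3 * p.2 ^ 2) * X 0 ^ 2 * X 1 + C (u ^ 3 * (2 * p.1 - 1) * p.2 ^ 3) * X 0 ^ 3)

lemma homog_mon {n i j : ℕ} (a : k) (h : i + j = n) :
    (C a * X 0 ^ i * X 1 ^ j : MvPolynomial (Fin 2) k).IsHomogeneous n := by
  have := ((isHomogeneous_C (Fin 2) a).mul ((isHomogeneous_X k (0 : Fin 2)).pow i)).mul
    ((isHomogeneous_X k (1 : Fin 2)).pow j)
  convert this using 1
  omega

lemma through_eq {u b c : k} (hu : u ≠ 0) (hb : b ≠ 0) (hc : c ≠ 0) :
    exceptionalThrough (eqn (u * (1 - b)) (-u ^ 2 * b) (-u ^ 3 * b) c) ![0, 1, 0, 0] =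
      curveOf u '' params u b c := by
  ext ⟨Q, P⟩
  constructor
  · rintro ⟨⟨h2, h3, he⟩, hQ, hP⟩
    obtain ⟨q₀, q₁, q₂, rfl⟩ := form_two h2
    obtain ⟨c₀, c₁, c₂, c₃, rfl⟩ := form_three h3
    have hq : q₀ = 0 := by simpa using hQ
    have hp : c₀ = 0 := by simpa using hP
    subst hq hp
    simp only [map_zero, zero_mul, zero_add] at he
    obtain ⟨e1, e2, e3, e4, e5, -⟩ := coeffs_of_eq he
    obtain ⟨r, s, hr, hs, rfl, rfl, rfl, rfl, rfl⟩ := core_forward hu hb hc e1 e2 e3 e4 e5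
    refine ⟨(r, s), ⟨hr, hs⟩, ?_⟩
    simp only [curveOf, map_zero, zero_mul, zero_add]
  · rintro ⟨⟨r, s⟩, ⟨hr, hs⟩, h⟩
    simp only at hr hs
    simp only [curveOf, Prod.mk.injEq] at h
    obtain ⟨rfl, rfl⟩ := h
    obtain ⟨e2, e3, e4, e5, e6⟩ := core_back hr hs
    refine ⟨⟨?_, ?_, eq_of_coeffs e2 e3 e4 e5 e6⟩, ?_, ?_⟩
    · have h1 := homog_mon (k := k) (n := 2) (i := 1) (j := 1) (u ^ 2 * s) rfl
      have h2 := homog_mon (k := k) (n := 2) (i := 2) (j := 0) (u ^ 2 * r * s ^ 2) rfl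
      simpa using h1.add h2
    · have h1 := homog_mon (k := k) (n := 3) (i := 2) (j := 1) (u ^ 3 * s ^ 2) rfl
      have h2 := homog_mon (k := k) (n := 3) (i := 3) (j := 0) (u ^ 3 * (2 * r - 1) * s ^ 3) rfl
      simpa using h1.add h2
    · simp
    · simp

lemma s_ne_zero {u b c : k} (hc : c ≠ 0) {p : k × k} (hp : p ∈ params u b c) : p.2 ≠ 0 := by
  intro h
  apply hc
  have := hp.2
  rw [h] at this
  linear_combination this

lemma curveOf_injOn {u b c : k} (hu : u ≠ 0) (hc : c ≠ 0) :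
    Set.InjOn (curveOf u) (params u b c) := by
  rintro ⟨r, s⟩ hp ⟨r', s'⟩ hp' h
  have hs' : s' ≠ 0 := s_ne_zero hc hp'
  simp only [curveOf, Prod.mk.injEq] at h
  have h1 := h.1
  have h2 := congrArg (aeval (R := k) ![(Polynomial.X : Polynomial k), 1]) h1
  have h3 : Polynomial.C (u ^ 2 * s - u ^ 2 * s') * Polynomial.X +
      Polynomial.C (u ^ 2 * r * s ^ 2 - u ^ 2 * r' * s' ^ 2) * Polynomial.X ^ 2 +
      Polynomial.C 0 * Polynomial.X ^ 3 + Polynomial.C 0 * Polynomial.X ^ 4 +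
      Polynomial.C 0 * Polynomial.X ^ 5 + Polynomial.C 0 * Polynomial.X ^ 6 = 0 := by
    rw [← sub_eq_zero] at h2
    rw [← h2]
    simp only [map_add, map_sub, map_mul, map_pow, aeval_X, algHom_C, Matrix.cons_val,
      Polynomial.algebraMap_eq, mul_one, map_zero]
    ring
  obtain ⟨e1, e2, -⟩ := sextic_zero h3
  have hss : s = s' := by
    apply mul_left_cancel₀ (pow_ne_zero 2 hu)
    linear_combination e1
  subst hss
  have : r = r' := by
    have h4 : u ^ 2 * s ^ 2 ≠ 0 := mul_ne_zero (pow_ne_zero 2 hu) (pow_ne_zero 2 hs')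
    apply mul_left_cancel₀ h4
    linear_combination e2
  rw [this]

lemma card_fifth_roots [IsAlgClosed k] (h5 : (5 : k) ≠ 0) {a : k} (ha : a ≠ 0) :
    {s : k | s ^ 5 = a}.ncard = 5 := by
  have hsep : (Polynomial.X ^ 5 - Polynomial.C a : Polynomial k).Separable :=
    Polynomial.separable_X_pow_sub_C a (by exact_mod_cast h5) ha
  have h := Polynomial.card_rootSet_eq_natDegree (K := k) hsep
    (IsAlgClosed.splits _)
  have hset : ((Polynomial.X ^ 5 - Polynomial.C a : Polynomial k).rootSet k) = {s : k | s ^ 5 = a} := by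
    ext s
    rw [Polynomial.mem_rootSet]
    have hne : (Polynomial.X ^ 5 - Polynomial.C a : Polynomial k) ≠ 0 :=
      Polynomial.X_pow_sub_C_ne_zero (by norm_num) a
    simp [hne, sub_eq_zero]
  rw [← hset, Set.ncard_eq_toFinset_card', Set.toFinset_card, h,
    Polynomial.natDegree_X_pow_sub_C]

lemma params_ncard [IsAlgClosed k] (h5 : (5 : k) ≠ 0) {u b c : k} (hu : u ≠ 0)
    (hc : c ≠ 0) (hd : b ^ 2 - 11 * b - 1 ≠ 0) : (params u b c).ncard = 10 := by
  obtain ⟨d, hd5⟩ := IsAlgClosed.exists_pow_nat_eq (5 : k) (n := 2) (by norm_num)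
  have hd0 : d ≠ 0 := by rintro rfl; exact h5 (by rw [← hd5]; ring)
  -- the two roots
  obtain ⟨r₁, hr₁⟩ : ∃ r : k, r ^ 2 - 3 * r + 1 = 0 := by
    obtain ⟨r, hr⟩ := IsAlgClosed.exists_root (Polynomial.X ^ 2 - Polynomial.C 3 * Polynomial.X +
      Polynomial.C 1 : Polynomial k) (by
        have : (Polynomial.X ^ 2 - Polynomial.C 3 * Polynomial.X +
          Polynomial.C 1 : Polynomial k).degree = 2 := by compute_degree!
        rw [this]; norm_num)
    refine ⟨r, ?_⟩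
    simpa using hr
  set r₂ := 3 - r₁ with hr₂def
  have hr₂ : r₂ ^ 2 - 3 * r₂ + 1 = 0 := by rw [hr₂def]; linear_combination hr₁
  have hne : r₁ ≠ r₂ := by
    intro h
    apply h5
    have h' : 2 * r₁ = 3 := by linear_combination h + hr₂def
    linear_combination -4 * hr₁ + (2 * r₁ - 3) * h'
  have hroots : ∀ r : k, r ^ 2 - 3 * r + 1 = 0 ↔ r = r₁ ∨ r = r₂ := by
    intro r
    constructor
    · intro hr
      have : (r - r₁) * (r - r₂) = 0 := by rw [hr₂def]; linear_combination hr - hr₁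
      rcases mul_eq_zero.1 this with h | h
      · exact Or.inl (sub_eq_zero.1 h)
      · exact Or.inr (sub_eq_zero.1 h)
    · rintro (rfl | rfl)
      · exact hr₁
      · exact hr₂
  have hfac : ∀ r : k, r ^ 2 - 3 * r + 1 = 0 → (1 + (5 * r - 2) * b) ≠ 0 := by
    intro r hr h
    apply hd
    linear_combination -(1 + (5 * (3 - r) - 2) * b) * h - 25 * b ^ 2 * hr
  have hS : ∀ r : k, r ^ 2 - 3 * r + 1 = 0 →
      {s : k | u ^ 6 * s ^ 5 * (1 + (5 * r - 2) * b) = -c}.ncard = 5 := by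
    intro r hr
    have h1 := hfac r hr
    have : {s : k | u ^ 6 * s ^ 5 * (1 + (5 * r - 2) * b) = -c} =
        {s : k | s ^ 5 = -c / (u ^ 6 * (1 + (5 * r - 2) * b))} := by
      ext s
      simp only [Set.mem_ofPred_eq]
      rw [eq_div_iff (mul_ne_zero (pow_ne_zero _ hu) h1)]
      constructor <;> intro h <;> linear_combination h
    rw [this]
    exact card_fifth_roots h5 (div_ne_zero (neg_ne_zero.2 hc) (mul_ne_zero (pow_ne_zero _ hu) h1))
  have hunion : params u b c =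
      (fun s => (r₁, s)) '' {s : k | u ^ 6 * s ^ 5 * (1 + (5 * r₁ - 2) * b) = -c} ∪
      (fun s => (r₂, s)) '' {s : k | u ^ 6 * s ^ 5 * (1 + (5 * r₂ - 2) * b) = -c} := by
    ext ⟨r, s⟩
    simp only [params, Set.mem_ofPred_eq, Set.mem_union, Set.mem_image, Prod.mk.injEq]
    constructor
    · rintro ⟨hr, hs⟩
      rcases (hroots r).1 hr with rfl | rfl
      · exact Or.inl ⟨s, hs, rfl, rfl⟩
      · exact Or.inr ⟨s, hs, rfl, rfl⟩
    · rintro (⟨s', hs, rfl, rfl⟩ | ⟨s', hs, rfl, rfl⟩)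
      · exact ⟨hr₁, hs⟩
      · exact ⟨hr₂, hs⟩
  have hinj : ∀ r : k, Function.Injective (fun s : k => (r, s)) := fun r s s' h =>
    (Prod.mk.injEq _ _ _ _ ▸ h).2
  have hfin : ∀ r : k, r ^ 2 - 3 * r + 1 = 0 →
      ((fun s => (r, s)) '' {s : k | u ^ 6 * s ^ 5 * (1 + (5 * r - 2) * b) = -c}).Finite :=
    fun r hr => (Set.finite_of_ncard_ne_zero (by rw [hS _ hr]; norm_num)).image _
  rw [hunion, Set.ncard_union_eq ?_ (hfin _ hr₁) (hfin _ hr₂),
    Set.ncard_image_of_injective _ (hinj _),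
    Set.ncard_image_of_injective _ (hinj _), hS _ hr₁, hS _ hr₂]
  rw [Set.disjoint_left]
  rintro ⟨r, s⟩ ⟨s', _, h⟩ ⟨s'', _, h'⟩
  simp only [Prod.mk.injEq] at h h'
  exact hne (h.1.trans h'.1.symm)

lemma through_ncard [IsAlgClosed k] (h5 : (5 : k) ≠ 0) {u b c : k} (hu : u ≠ 0) (hb : b ≠ 0)
    (hc : c ≠ 0) (hd : b ^ 2 - 11 * b - 1 ≠ 0) :
    (exceptionalThrough (eqn (u * (1 - b)) (-u ^ 2 * b) (-u ^ 3 * b) c) ![0, 1, 0, 0]).ncard =
      10 := by
  rw [through_eq hu hb hc, Set.InjOn.ncard_image (curveOf_injOn hu hc),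
    params_ncard h5 hu hc hd]

/-! ### Transport to the other points -/

lemma aeval_bertini (a₁ a₂ a₃ c : k) (Q P : MvPolynomial (Fin 2) k) :
    aeval ![X 0, X 1, Q, -P - C a₁ * X 1 * Q - C a₃ * X 1 ^ 3] (eqn a₁ a₂ a₃ c) =
      aeval ![X 0, X 1, Q, P] (eqn a₁ a₂ a₃ c) := by
  simp only [eqn, map_add, map_sub, map_mul, map_pow, aeval_X, algHom_C, Matrix.cons_val,
    MvPolynomial.algebraMap_eq, Fin.isValue]
  ring

lemma aeval_translate (t : k) (Q P : MvPolynomial (Fin 2) k) :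
    aeval ![X 0, X 1, Q + C t * X 1 ^ 2, P - X 1 * Q] (surface t) =
      aeval ![X 0, X 1, Q, P] (eqn (-(1 + t)) t (-t ^ 2) 1) := by
  simp only [surface, eqn, map_add, map_sub, map_mul, map_pow, map_neg, map_one, aeval_X, algHom_C,
    Matrix.cons_val, MvPolynomial.algebraMap_eq, Fin.isValue]
  ring

lemma homog_X1_pow (a : k) (n : ℕ) : (C a * X 1 ^ n : MvPolynomial (Fin 2) k).IsHomogeneous n := by
  have := homog_mon (k := k) (n := n) (i := 0) (j := n) a (by omega)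
  simpa using this

lemma homog_mul_X1 {n : ℕ} {Q : MvPolynomial (Fin 2) k} (h : Q.IsHomogeneous n) :
    (X 1 * Q : MvPolynomial (Fin 2) k).IsHomogeneous (n + 1) := by
  have := (isHomogeneous_X k (1 : Fin 2)).mul h
  rwa [add_comm] at this

lemma homog_bertini {a₁ a₃ : k} {Q P : MvPolynomial (Fin 2) k} (hQ : Q.IsHomogeneous 2)
    (hP : P.IsHomogeneous 3) :
    (-P - C a₁ * X 1 * Q - C a₃ * X 1 ^ 3 : MvPolynomial (Fin 2) k).IsHomogeneous 3 := by
  have h1 := (isHomogeneous_C (Fin 2) a₁).mul (homog_mul_X1 hQ)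
  rw [zero_add, ← mul_assoc] at h1
  have hP' : (-P).IsHomogeneous 3 := by
    simpa using (isHomogeneous_C (Fin 2) (-1 : k)).mul hP
  exact (hP'.sub h1).sub (homog_X1_pow a₃ 3)

lemma bertini_ncard (a₁ a₂ a₃ c z w : k) :
    (exceptionalThrough (eqn a₁ a₂ a₃ c) ![0, 1, z, -w - a₁ * z - a₃]).ncard =
      (exceptionalThrough (eqn a₁ a₂ a₃ c) ![0, 1, z, w]).ncard := by
  let f : MvPolynomial (Fin 2) k × MvPolynomial (Fin 2) k →
      MvPolynomial (Fin 2) k × MvPolynomial (Fin 2) k :=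
    fun E => (E.1, -E.2 - C a₁ * X 1 * E.1 - C a₃ * X 1 ^ 3)
  have hff : ∀ E, f (f E) = E := by
    rintro ⟨Q, P⟩
    simp only [f, Prod.mk.injEq, true_and]
    ring
  have hmaps : ∀ w : k, ∀ E ∈ exceptionalThrough (eqn a₁ a₂ a₃ c) ![0, 1, z, w],
      f E ∈ exceptionalThrough (eqn a₁ a₂ a₃ c) ![0, 1, z, -w - a₁ * z - a₃] := by
    rintro w ⟨Q, P⟩ ⟨⟨h1, h2, h3⟩, h4, h5⟩
    refine ⟨⟨h1, homog_bertini h1 h2, ?_⟩, h4, ?_⟩
    · rw [← h3]
      exact aeval_bertini a₁ a₂ a₃ c Q P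
    · simp only [Matrix.cons_val] at h4 h5 ⊢
      simp only [f, map_sub, map_neg, map_mul, map_pow, eval_C, eval_X, Matrix.cons_val, h4, h5]
      ring
  have himage : f '' exceptionalThrough (eqn a₁ a₂ a₃ c) ![0, 1, z, w] =
      exceptionalThrough (eqn a₁ a₂ a₃ c) ![0, 1, z, -w - a₁ * z - a₃] := by
    apply Set.Subset.antisymm
    · rintro _ ⟨E, hE, rfl⟩
      exact hmaps w E hE
    · intro E hE
      refine ⟨f E, ?_, hff E⟩
      have := hmaps _ E hE
      have hw : -(-w - a₁ * z - a₃) - a₁ * z - a₃ = w := by ring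
      rwa [hw] at this
  rw [← himage]
  exact Set.ncard_image_of_injective _ (fun a b h => by rw [← hff a, h, hff b])

lemma translate_ncard (t : k) :
    (exceptionalThrough (surface t) ![0, 1, t, 0]).ncard =
      (exceptionalThrough (eqn (-(1 + t)) t (-t ^ 2) 1) ![0, 1, 0, 0]).ncard := by
  let f : MvPolynomial (Fin 2) k × MvPolynomial (Fin 2) k →
      MvPolynomial (Fin 2) k × MvPolynomial (Fin 2) k :=
    fun E => (E.1 + C t * X 1 ^ 2, E.2 - X 1 * E.1)
  let g : MvPolynomial (Fin 2) k × MvPolynomial (Fin 2) k →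
      MvPolynomial (Fin 2) k × MvPolynomial (Fin 2) k :=
    fun E => (E.1 - C t * X 1 ^ 2, E.2 + X 1 * (E.1 - C t * X 1 ^ 2))
  have hgf : ∀ E, g (f E) = E := by
    rintro ⟨Q, P⟩
    simp only [f, g, Prod.mk.injEq]
    constructor <;> ring
  have hfg : ∀ E, f (g E) = E := by
    rintro ⟨Q, P⟩
    simp only [f, g, Prod.mk.injEq]
    constructor <;> ring
  have himage : f '' exceptionalThrough (eqn (-(1 + t)) t (-t ^ 2) 1) ![0, 1, 0, 0] =
      exceptionalThrough (surface t) ![0, 1, t, 0] := by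
    apply Set.Subset.antisymm
    · rintro _ ⟨⟨Q, P⟩, ⟨⟨h1, h2, h3⟩, h4, h5⟩, rfl⟩
      refine ⟨⟨h1.add (homog_X1_pow t 2), h2.sub (homog_mul_X1 h1), ?_⟩, ?_, ?_⟩
      · rw [← h3]
        exact aeval_translate t Q P
      · simp only [Matrix.cons_val] at h4 h5 ⊢
        simp only [f, map_add, map_mul, map_pow, eval_C, eval_X, Matrix.cons_val, h4]
        ring
      · simp only [Matrix.cons_val] at h4 h5 ⊢
        simp only [f, map_sub, map_mul, eval_X, Matrix.cons_val, h4, h5]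
        ring
    · rintro ⟨Q, P⟩ ⟨⟨h1, h2, h3⟩, h4, h5⟩
      refine ⟨g (Q, P), ⟨⟨h1.sub (homog_X1_pow t 2), h2.add (homog_mul_X1 (h1.sub
        (homog_X1_pow t 2))), ?_⟩, ?_, ?_⟩, hfg _⟩
      · rw [← aeval_translate]
        have := hfg (Q, P)
        simp only [f, g, Prod.mk.injEq] at this
        simp only [g]
        rw [this.1, this.2]
        exact h3
      · simp only [Matrix.cons_val] at h4 h5 ⊢
        simp only [g, map_sub, map_mul, map_pow, eval_C, eval_X, Matrix.cons_val, h4]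
        ring
      · simp only [Matrix.cons_val] at h4 h5 ⊢
        simp only [g, map_add, map_sub, map_mul, map_pow, eval_C, eval_X, Matrix.cons_val, h4, h5]
        ring
  rw [← himage]
  exact Set.ncard_image_of_injective _ (fun a b h => by rw [← hgf a, h, hgf b])

/-! ### Smoothness -/

lemma weierstrass_Δ (t : k) :
    (⟨1 - t, -t, -t, 0, 0⟩ : WeierstrassCurve k).Δ = t ^ 5 * (t ^ 2 - 11 * t - 1) := by
  simp only [WeierstrassCurve.Δ, WeierstrassCurve.b₂, WeierstrassCurve.b₄, WeierstrassCurve.b₆,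
    WeierstrassCurve.b₈]
  ring

lemma isDelPezzo_surface (h2 : (2 : k) ≠ 0) (h3 : (3 : k) ≠ 0) (h5 : (5 : k) ≠ 0) {t : k}
    (ht : t ≠ 0) (hd : t ^ 2 - 11 * t - 1 ≠ 0) : IsDelPezzo (surface t) := by
  refine ⟨?_, ?_, ?_, ?_⟩
  · have hX : ∀ i : Fin 4, (X i : MvPolynomial (Fin 4) k).IsWeightedHomogeneous weight (weight i) :=
      fun i => isWeightedHomogeneous_X k weight i
    have hC : ∀ a : k, (C a : MvPolynomial (Fin 4) k).IsWeightedHomogeneous weight 0 :=
      fun a => isWeightedHomogeneous_C weight a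
    have e1 : (X 3 ^ 2 : MvPolynomial (Fin 4) k).IsWeightedHomogeneous weight 6 := (hX 3).pow 2
    have e2 : (C (1 - t) * X 1 * X 2 * X 3 : MvPolynomial (Fin 4) k).IsWeightedHomogeneous weight 6 :=
      (((hC _).mul (hX 1)).mul (hX 2)).mul (hX 3)
    have e3 : (C (-t) * X 1 ^ 3 * X 3 : MvPolynomial (Fin 4) k).IsWeightedHomogeneous weight 6 :=
      ((hC _).mul ((hX 1).pow 3)).mul (hX 3)
    have e4 : (X 2 ^ 3 : MvPolynomial (Fin 4) k).IsWeightedHomogeneous weight 6 := (hX 2).pow 3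
    have e5 : (C (-t) * X 1 ^ 2 * X 2 ^ 2 : MvPolynomial (Fin 4) k).IsWeightedHomogeneous weight 6 :=
      ((hC _).mul ((hX 1).pow 2)).mul ((hX 2).pow 2)
    have e6 : (C 1 * X 0 ^ 5 * X 1 : MvPolynomial (Fin 4) k).IsWeightedHomogeneous weight 6 :=
      ((hC _).mul ((hX 0).pow 5)).mul (hX 1)
    exact ((((e1.add e2).add e3).sub e4).sub e5).sub e6
  · simp [surface, eqn]
  · simp [surface, eqn]
  · intro v hv h0
    by_contra hcon
    push Not at hcon
    have d0 := hcon 0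
    have d1 := hcon 1
    have d2 := hcon 2
    have d3 := hcon 3
    simp [surface, eqn, pderiv_X] at d0 d1 d2 d3 h0
    have hcase : v 1 = 0 ∨ v 0 = 0 := by
      rcases d0 with h | h | h
      · exact Or.inl h
      · exact absurd h h5
      · exact Or.inr h
    by_cases hy : v 1 = 0
    · have hw : v 3 = 0 := by
        have : (2 : k) * v 3 = 0 := by rw [hy] at d3; linear_combination d3
        exact (mul_eq_zero.1 this).resolve_left h2
      have hz : v 2 = 0 := by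
        have : (3 : k) * v 2 ^ 2 = 0 := by rw [hy, hw] at d2; linear_combination -d2
        exact pow_eq_zero_iff two_ne_zero |>.1 ((mul_eq_zero.1 this).resolve_left h3)
      have hx : v 0 = 0 := by
        have : v 0 ^ 5 = 0 := by rw [hy, hw, hz] at d1; linear_combination -d1
        exact pow_eq_zero_iff (by norm_num : 5 ≠ 0) |>.1 this
      apply hv
      ext i
      fin_cases i <;> assumption
    · have hx : v 0 = 0 := hcase.resolve_left hy
      set W : WeierstrassCurve.Affine k := ⟨1 - t, -t, -t, 0, 0⟩ with hW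
      have hΔ : W.Δ ≠ 0 := by
        rw [hW, weierstrass_Δ]
        exact mul_ne_zero (pow_ne_zero _ ht) hd
      have heq : W.Equation (v 2 / v 1 ^ 2) (v 3 / v 1 ^ 3) := by
        rw [WeierstrassCurve.Affine.equation_iff']
        simp only [hW]
        field_simp
        rw [hx] at h0
        linear_combination h0
      rcases ((WeierstrassCurve.Affine.nonsingular_iff' _ _).1
        ((WeierstrassCurve.Affine.equation_iff_nonsingular_of_Δ_ne_zero hΔ).1 heq)).2 with h | h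
      · apply h
        simp only [hW]
        field_simp
        linear_combination d2
      · apply h
        simp only [hW]
        field_simp
        linear_combination d3

/-! ### The main theorem -/

/-- The four points. -/
def point (t : k) : Fin 4 → Fin 4 → k :=
  ![![0, 1, 0, 0], ![0, 1, 0, t], ![0, 1, t, 0], ![0, 1, t, t ^ 2]]

lemma isGeneralizedEckardt_of (h2 : (2 : k) ≠ 0) (h3 : (3 : k) ≠ 0)
    {F : MvPolynomial (Fin 4) k} {v : Fin 4 → k} (hv : v ≠ 0) (h0 : eval v F = 0)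
    (h : (exceptionalThrough F v).ncard = 10) : IsGeneralizedEckardt F v := by
  refine ⟨hv, h0, ?_⟩
  have e2 : ringChar k ≠ 2 := by
    intro h
    apply h2
    have := (ringChar.spec k 2).2 (by rw [h])
    exact_mod_cast this
  have e3 : ringChar k ≠ 3 := by
    intro h
    apply h3
    have := (ringChar.spec k 3).2 (by rw [h])
    exact_mod_cast this
  rw [if_neg e2, if_neg e3, h]

/-- **Main result.** Over every algebraically closed field of characteristic different from `2`,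
`3` and `5`, for every `t ≠ 0` with `t ^ 2 - 11 t - 1 ≠ 0`, the surface
`w ^ 2 + (1 - t) y z w - t y ^ 3 w = z ^ 3 - t y ^ 2 z ^ 2 + x ^ 5 y` is a del Pezzo surface of
degree one, and the points `(0:1:0:0)`, `(0:1:0:t)`, `(0:1:t:0)`, `(0:1:t:t^2)` are four distinct
generalized Eckardt points of this surface. -/
theorem result (k : Type*) [Field k] [IsAlgClosed k] (h2 : (2 : k) ≠ 0) (h3 : (3 : k) ≠ 0)
    (h5 : (5 : k) ≠ 0) (t : k) (ht : t ≠ 0) (hd : t ^ 2 - 11 * t - 1 ≠ 0) :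
    IsDelPezzo (surface t) ∧ (∀ i, IsGeneralizedEckardt (surface t) (point t i)) ∧
      ∀ i j, i ≠ j → ¬ SamePoint (point t i) (point t j) := by
  have hn0 : (exceptionalThrough (surface t) ![0, 1, 0, 0]).ncard = 10 := by
    have := through_ncard h5 (u := 1) (b := t) (c := 1) one_ne_zero ht one_ne_zero hd
    simp only [one_mul, one_pow, neg_mul] at this
    exact this
  have hn2 : (exceptionalThrough (surface t) ![0, 1, t, 0]).ncard = 10 := by
    rw [translate_ncard]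
    have := through_ncard h5 (u := -t) (b := -1 / t) (c := 1) (neg_ne_zero.2 ht)
      (div_ne_zero (neg_ne_zero.2 one_ne_zero) ht) one_ne_zero (by
        intro h
        apply hd
        field_simp at h
        linear_combination -h)
    convert this using 4
    · field_simp
      ring
    · field_simp
    · field_simp
  have hn1 : (exceptionalThrough (surface t) ![0, 1, 0, t]).ncard = 10 := by
    rw [← hn0, surface, ← bertini_ncard (1 - t) (-t) (-t) 1 0 0]
    congr 3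
    simp
  have hn3 : (exceptionalThrough (surface t) ![0, 1, t, t ^ 2]).ncard = 10 := by
    rw [← hn2, surface, ← bertini_ncard (1 - t) (-t) (-t) 1 t 0]
    congr 3
    ring_nf
  refine ⟨isDelPezzo_surface h2 h3 h5 ht hd, ?_, ?_⟩
  · intro i
    have hv : ∀ z w : k, (![0, 1, z, w] : Fin 4 → k) ≠ 0 := by
      intro z w h
      simpa using congrFun h 1
    have hev : ∀ z w : k, eval ![0, 1, z, w] (surface t) =
        w ^ 2 + (1 - t) * z * w - t * w - z ^ 3 + t * z ^ 2 := by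
      intro z w
      simp [surface, eqn]
      ring
    fin_cases i
    · exact isGeneralizedEckardt_of h2 h3 (hv 0 0) ((hev 0 0).trans (by ring)) hn0
    · exact isGeneralizedEckardt_of h2 h3 (hv 0 t) ((hev 0 t).trans (by ring)) hn1
    · exact isGeneralizedEckardt_of h2 h3 (hv t 0) ((hev t 0).trans (by ring)) hn2
    · exact isGeneralizedEckardt_of h2 h3 (hv t (t ^ 2)) ((hev t (t ^ 2)).trans (by ring)) hn3
  · rintro i j hij ⟨l, hl, h⟩
    have h1 : l = 1 := by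
      have := h 1
      fin_cases i <;> fin_cases j <;> simpa [point, weight, eq_comm] using this
    subst h1
    apply hij
    fin_cases i <;> fin_cases j <;> first
      | rfl
      | (exfalso
         first
          | exact ht (by simpa [point, weight] using h 2)
          | exact ht (by simpa [point, weight] using (h 2).symm)
          | exact ht (by simpa [point, weight] using h 3)
          | exact ht (by simpa [point, weight] using (h 3).symm))

end Pool.Agent.Results.MP_3c244b_ag.TorsionPoints
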